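import Mathlib

open Finset Filter Topology

namespace Pool.Agent.Erdos456

theorem sum_period_zero {q : ℕ} [NeZero q] (χ : DirichletCharacter ℂ q) (hχ : χ ≠ 1) :
    ∑ i ∈ range q, χ (i : ZMod q) = 0 := by
  rw [← MulChar.sum_eq_zero_of_ne_one hχ]
  symm
  apply Finset.sum_bij (fun (a : ZMod q) _ => a.val)
  · intro a _; exact Finset.mem_range.mpr (ZMod.val_lt a)
  · intro a _ b _ h; exact ZMod.val_injective q h
  · intro b hb
    exact ⟨(b : ZMod q), Finset.mem_univ _, ZMod.val_cast_of_lt (Finset.mem_range.mp hb)⟩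
  · intro a _; rw [ZMod.natCast_zmod_val]

theorem sum_shift_zero {q : ℕ} [NeZero q] (χ : DirichletCharacter ℂ q) (hχ : χ ≠ 1) (n : ℕ) :
    ∑ i ∈ range q, χ ((n + i : ℕ) : ZMod q) = 0 := by
  induction n with
  | zero => simpa using sum_period_zero χ hχ
  | succ n ih =>
    have h1 := Finset.sum_range_succ' (fun i => χ ((n + i : ℕ) : ZMod q)) q
    have h2 := Finset.sum_range_succ (fun i => χ ((n + i : ℕ) : ZMod q)) q
    rw [h2, ih, zero_add] at h1
    have h3 : ((n + q : ℕ) : ZMod q) = ((n + 0 : ℕ) : ZMod q) := by simp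
    rw [h3] at h1
    have h4 : ∑ i ∈ range q, χ ((n + (i + 1) : ℕ) : ZMod q) = 0 := by
      linear_combination -h1
    rw [← h4]
    apply Finset.sum_congr rfl
    intro i _
    congr 2; ring

theorem norm_partial_le {q : ℕ} [NeZero q] (χ : DirichletCharacter ℂ q) (hχ : χ ≠ 1) (n : ℕ) :
    ‖∑ i ∈ range n, χ (i : ZMod q)‖ ≤ q := by
  induction n using Nat.strong_induction_on with
  | _ n ih =>
    by_cases h : n < q
    · refine (norm_sum_le _ _).trans ?_
      refine (Finset.sum_le_sum (fun i _ => χ.norm_le_one _)).trans ?_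
      simp only [Finset.sum_const, Finset.card_range, nsmul_eq_mul, mul_one]
      exact_mod_cast h.le
    · push Not at h
      have hq : 0 < q := NeZero.pos q
      obtain ⟨m, rfl⟩ : ∃ m, n = m + q := ⟨n - q, by omega⟩
      rw [Finset.sum_range_add, sum_shift_zero χ hχ m, add_zero]
      exact ih m (by omega)

theorem norm_interval_le {q : ℕ} [NeZero q] (χ : DirichletCharacter ℂ q) (hχ : χ ≠ 1) (M n : ℕ) :
    ‖∑ i ∈ range n, χ ((M + i : ℕ) : ZMod q)‖ ≤ 2 * q := by
  have h := Finset.sum_range_add (fun i => χ ((i : ℕ) : ZMod q)) M n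
  have e : ∑ i ∈ range n, χ ((M + i : ℕ) : ZMod q) =
      ∑ i ∈ range (M + n), χ ((i : ℕ) : ZMod q) - ∑ i ∈ range M, χ ((i : ℕ) : ZMod q) := by
    rw [h]; ring
  rw [e]
  refine (norm_sub_le _ _).trans ?_
  have h1 := norm_partial_le χ hχ (M + n)
  have h2 := norm_partial_le χ hχ M
  linarith

/-- Abel summation bound. -/
theorem abel_bound (b : ℕ → ℂ) (B : ℝ) (hB : ∀ n, ‖∑ i ∈ range n, b i‖ ≤ B) (g : ℕ → ℝ)
    (hg : Antitone g) (hg0 : ∀ n, 0 ≤ g n) (N : ℕ) : ‖∑ i ∈ range N, b i * (g i : ℂ)‖ ≤ B * g 0 := by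
  have hB0 : 0 ≤ B := (norm_nonneg _).trans (hB 0)
  -- sum_{i<N} b_i g_i = S_N g_N + sum_{i<N} S_{i+1} (g_i - g_{i+1})
  have key : ∀ N, ∑ i ∈ range N, b i * (g i : ℂ) = (∑ i ∈ range N, b i) * (g N : ℂ)
      + ∑ i ∈ range N, (∑ j ∈ range (i+1), b j) * ((g i - g (i+1) : ℝ) : ℂ) := by
    intro N
    induction N with
    | zero => simp
    | succ N ih =>
      rw [Finset.sum_range_succ (fun i => b i * (g i : ℂ)), ih,
        Finset.sum_range_succ (fun i => (∑ j ∈ range (i+1), b j) * ((g i - g (i+1) : ℝ) : ℂ)),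
        Finset.sum_range_succ b N]
      push_cast; ring
  rw [key]
  refine (norm_add_le _ _).trans ?_
  have h1 : ‖(∑ i ∈ range N, b i) * (g N : ℂ)‖ ≤ B * g N := by
    rw [norm_mul, Complex.norm_real, Real.norm_eq_abs, abs_of_nonneg (hg0 N)]
    exact mul_le_mul_of_nonneg_right (hB N) (hg0 N)
  have h2 : ‖∑ i ∈ range N, (∑ j ∈ range (i+1), b j) * ((g i - g (i+1) : ℝ) : ℂ)‖ ≤ B * (g 0 - g N) := by
    refine (norm_sum_le _ _).trans ?_
    have : ∀ i ∈ range N, ‖(∑ j ∈ range (i+1), b j) * ((g i - g (i+1) : ℝ) : ℂ)‖ ≤ B * (g i - g (i+1)) := by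
      intro i _
      have hd : 0 ≤ g i - g (i+1) := sub_nonneg.mpr (hg (Nat.le_succ i))
      rw [norm_mul, Complex.norm_real, Real.norm_eq_abs, abs_of_nonneg hd]
      exact mul_le_mul_of_nonneg_right (hB _) hd
    refine (Finset.sum_le_sum this).trans ?_
    rw [← Finset.mul_sum, Finset.sum_range_sub']
  nlinarith

/-- tail bound -/
theorem tsum_bound {q : ℕ} [NeZero q] (χ : DirichletCharacter ℂ q) (hχ : χ ≠ 1) (g : ℕ → ℝ)
    (M : ℕ) (hg : ∀ m n, M ≤ m → m ≤ n → g n ≤ g m) (hg0 : ∀ n, 0 ≤ g n) :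
    ‖∑' n : ℕ, χ (n : ZMod q) * (g n : ℂ)‖ ≤ ∑ n ∈ range M, g n + 2 * q * g M := by
  have hRHS : 0 ≤ ∑ n ∈ range M, g n + 2 * q * g M :=
    add_nonneg (Finset.sum_nonneg (fun _ _ => hg0 _)) (mul_nonneg (by positivity) (hg0 _))
  by_cases hs : Summable (fun n : ℕ => χ (n : ZMod q) * (g n : ℂ))
  · have hlim := hs.hasSum.tendsto_sum_nat
    have hlim2 := hlim.norm
    apply le_of_tendsto hlim2
    filter_upwards [eventually_ge_atTop M] with N hN
    obtain ⟨n, rfl⟩ : ∃ n, N = M + n := ⟨N - M, by omega⟩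
    rw [Finset.sum_range_add]
    refine (norm_add_le _ _).trans ?_
    apply add_le_add
    · refine (norm_sum_le _ _).trans (Finset.sum_le_sum (fun i _ => ?_))
      rw [norm_mul, Complex.norm_real, Real.norm_eq_abs, abs_of_nonneg (hg0 i)]
      have := χ.norm_le_one (i : ZMod q)
      nlinarith [hg0 i]
    · have := abel_bound (fun i => χ ((M + i : ℕ) : ZMod q)) (2 * q) (norm_interval_le χ hχ M)
        (fun i => g (M + i)) (fun a b hab => hg _ _ (by omega) (by omega)) (fun n => hg0 _) n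
      simpa using this
  · rw [tsum_eq_zero_of_not_summable hs, norm_zero]; exact hRHS

theorem exp_two_le : Real.exp 2 ≤ 8 := by
  have h1 : Real.exp 2 = Real.exp 1 * Real.exp 1 := by rw [← Real.exp_add]; norm_num
  have h2 := Real.exp_one_lt_d9
  have h3 := Real.exp_pos 1
  rw [h1]; nlinarith

theorem two_le_log {x : ℝ} (hx : 8 ≤ x) : 2 ≤ Real.log x := by
  rw [Real.le_log_iff_exp_le (by linarith)]
  exact exp_two_le.trans hx

/-- `(log x)^k x^(-s)` is antitone on `[8, ∞)` for `k ≤ 2`, `1 ≤ s`. -/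
theorem anti_aux (k : ℕ) (hk : k ≤ 2) (s : ℝ) (hs : 1 ≤ s) {x y : ℝ} (hx : 8 ≤ x) (hxy : x ≤ y) :
    (Real.log y) ^ k * y ^ (-s) ≤ (Real.log x) ^ k * x ^ (-s) := by
  have hx0 : 0 < x := by linarith
  have hy0 : 0 < y := by linarith
  have hlx := two_le_log hx
  have hly : 2 ≤ Real.log y := two_le_log (hx.trans hxy)
  -- use: log y / log x ≤ (y/x)^(1/2)
  have h1 : Real.log y ≤ Real.log x * (y / x) ^ (1/2 : ℝ) := by
    have hr : 1 ≤ y / x := by rw [le_div_iff₀ hx0]; linarith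
    have h2 : Real.log y = Real.log x + Real.log (y / x) := by
      rw [Real.log_div hy0.ne' hx0.ne']; ring
    have h3 : 1 + Real.log (y/x) / 2 ≤ (y / x) ^ (1/2 : ℝ) := by
      rw [Real.rpow_def_of_pos (by positivity)]
      have := Real.add_one_le_exp (Real.log (y/x) * (1/2))
      linarith
    have h4 : 0 ≤ Real.log (y/x) := Real.log_nonneg hr
    nlinarith
  have hr0 : (0:ℝ) < y / x := by positivity
  have hr1 : 1 ≤ y / x := by rw [le_div_iff₀ hx0]; linarith
  have h5 : (Real.log y) ^ k ≤ (Real.log x) ^ k * ((y / x) ^ (1/2 : ℝ)) ^ k := by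
    rw [← mul_pow]; exact pow_le_pow_left₀ (by linarith) h1 k
  have h6 : ((y / x) ^ (1/2 : ℝ)) ^ k ≤ (y / x) ^ s := by
    rw [← Real.rpow_natCast, ← Real.rpow_mul hr0.le]
    apply Real.rpow_le_rpow_of_exponent_le hr1
    have : (k:ℝ) ≤ 2 := by exact_mod_cast hk
    linarith
  have h7 : (y / x) ^ s * y ^ (-s) = x ^ (-s) := by
    rw [Real.div_rpow hy0.le hx0.le, Real.rpow_neg hy0.le, Real.rpow_neg hx0.le]
    have := Real.rpow_pos_of_pos hy0 s
    field_simp
  have hlx0 : 0 ≤ (Real.log x) ^ k := by positivity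
  calc (Real.log y) ^ k * y ^ (-s) ≤ ((Real.log x) ^ k * (y / x) ^ s) * y ^ (-s) := by
        apply mul_le_mul_of_nonneg_right _ (by positivity)
        exact h5.trans (mul_le_mul_of_nonneg_left h6 hlx0)
    _ = (Real.log x) ^ k * x ^ (-s) := by rw [mul_assoc, h7]

theorem harm_le (M : ℕ) (hM : 1 ≤ M) : ∑ n ∈ range M, (if n = 0 then 0 else 1 / (n:ℝ)) ≤ 1 + Real.log M := by
  have h := harmonic_le_one_add_log M
  rw [harmonic_eq_sum_Icc] at h
  push_cast at h
  refine le_trans ?_ h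
  rw [← Finset.sum_subset (s₁ := (range M).filter (fun n => n ≠ 0)) (Finset.filter_subset _ _) (by
    intro x hx hx2
    rw [Finset.mem_filter] at hx2
    push Not at hx2
    rw [hx2 hx]; simp)]
  have hsub : (range M).filter (fun n => n ≠ 0) ⊆ Icc 1 M := by
    intro n hn
    rw [Finset.mem_filter, Finset.mem_range] at hn
    rw [Finset.mem_Icc]; omega
  refine le_trans ?_ (Finset.sum_le_sum_of_subset_of_nonneg hsub (fun _ _ _ => by positivity))
  apply Finset.sum_le_sum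
  intro n hn
  rw [Finset.mem_filter] at hn
  rw [if_neg hn.2, one_div]

/-- combined estimate -/
theorem main_bound {q : ℕ} [NeZero q] (χ : DirichletCharacter ℂ q) (hχ : χ ≠ 1) (k : ℕ) (hk : k ≤ 2)
    (A : ℝ) (hA : 0 ≤ A) (g : ℕ → ℝ) (hg0 : ∀ n, 0 ≤ g n)
    (hgb : ∀ n : ℕ, g n ≤ if n = 0 then 0 else A * ((Real.log n) ^ k * (1 / (n:ℝ))))
    (hanti : ∀ m n : ℕ, 8 ≤ m → m ≤ n → g n ≤ g m) :
    ‖∑' n : ℕ, χ (n : ZMod q) * (g n : ℂ)‖ ≤ A * (200 * (Real.log (q + 2)) ^ (k+1)) := by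
  set M := max q 8 with hM
  have hq1 : 1 ≤ q := NeZero.one_le
  have h1 := tsum_bound χ hχ g M (fun m n hm hmn => hanti m n ((le_max_right _ _).trans hm) hmn) hg0
  have hM8 : 8 ≤ M := le_max_right _ _
  have hM1 : (1:ℝ) ≤ M := by exact_mod_cast (by omega : 1 ≤ M)
  have hMq : (q:ℝ) ≤ M := by exact_mod_cast le_max_left _ _
  have hlM : 0 ≤ Real.log M := Real.log_nonneg hM1
  -- head
  have hhead : ∑ n ∈ range M, g n ≤ A * ((Real.log M) ^ k * (1 + Real.log M)) := by
    have h2 : ∀ n ∈ range M, g n ≤ A * (Real.log M) ^ k * (if n = 0 then 0 else 1 / (n:ℝ)) := by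
      intro n hn
      refine (hgb n).trans ?_
      split_ifs with h0
      · simp
      · have hn1 : (1:ℝ) ≤ n := by exact_mod_cast Nat.pos_of_ne_zero h0
        have hnM : (n:ℝ) ≤ M := by exact_mod_cast (Finset.mem_range.mp hn).le
        have : (Real.log n) ^ k ≤ (Real.log M) ^ k :=
          pow_le_pow_left₀ (Real.log_nonneg hn1) (Real.log_le_log (by linarith) hnM) k
        have h3 : 0 ≤ 1 / (n:ℝ) := by positivity
        calc A * ((Real.log n) ^ k * (1 / (n:ℝ))) ≤ A * ((Real.log M) ^ k * (1 / (n:ℝ))) := by gcongr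
          _ = _ := by ring
    refine (Finset.sum_le_sum h2).trans ?_
    rw [← Finset.mul_sum]
    have := harm_le M (by omega)
    calc _ ≤ A * (Real.log M) ^ k * (1 + Real.log M) := by gcongr
      _ = _ := by ring
  have htail : 2 * q * g M ≤ A * (2 * (Real.log M) ^ k) := by
    have h2 := hgb M
    rw [if_neg (by omega)] at h2
    have hM0 : (0:ℝ) < M := by linarith
    have hgM := hg0 M
    calc 2 * q * g M ≤ 2 * M * (A * ((Real.log M) ^ k * (1 / (M:ℝ)))) := by gcongr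
      _ = _ := by field_simp
  set ℓ := Real.log (q + 2) with hℓ
  have hℓ1 : 1 ≤ ℓ := by
    rw [hℓ, Real.le_log_iff_exp_le (by positivity)]
    have := Real.exp_one_lt_d9
    have : (1:ℝ) ≤ q := by exact_mod_cast hq1
    linarith
  have hlM2 : Real.log M ≤ 4 * ℓ := by
    have h3 : (M:ℝ) ≤ 8 * (q + 2) := by
      rw [hM]; push_cast
      apply max_le <;> [skip; skip]
      · have : (0:ℝ) ≤ q := by positivity
        linarith
      · have : (0:ℝ) ≤ q := by positivity
        linarith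
    have h4 := Real.log_le_log (by linarith) h3
    rw [Real.log_mul (by norm_num) (by positivity)] at h4
    have h5 : Real.log 8 ≤ 3 := by
      have : (8:ℝ) = 2 ^ 3 := by norm_num
      rw [this, Real.log_pow]
      have := Real.log_two_lt_d9
      push_cast; linarith
    rw [← hℓ] at h4
    linarith
  have hfin : (Real.log M) ^ k * (3 + Real.log M) ≤ 200 * ℓ ^ (k+1) := by
    have h3 : (Real.log M) ^ k ≤ (4 * ℓ) ^ k := pow_le_pow_left₀ hlM hlM2 k
    have h4 : (4:ℝ) ^ k ≤ 16 := by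
      calc (4:ℝ) ^ k ≤ 4 ^ 2 := pow_le_pow_right₀ (by norm_num) hk
        _ = 16 := by norm_num
    have h5 : 3 + Real.log M ≤ 7 * ℓ := by linarith
    have hℓk : 0 ≤ ℓ ^ k := by positivity
    calc (Real.log M) ^ k * (3 + Real.log M) ≤ (4 * ℓ) ^ k * (7 * ℓ) := by gcongr
      _ = 4 ^ k * (7 * (ℓ ^ k * ℓ)) := by rw [mul_pow]; ring
      _ ≤ 16 * (7 * (ℓ ^ k * ℓ)) := by gcongr
      _ ≤ 200 * ℓ ^ (k+1) := by
        rw [pow_succ]
        have : 0 ≤ ℓ ^ k * ℓ := by positivity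
        linarith
  calc _ ≤ ∑ n ∈ range M, g n + 2 * q * g M := h1
    _ ≤ A * ((Real.log M) ^ k * (1 + Real.log M)) + A * (2 * (Real.log M) ^ k) := add_le_add hhead htail
    _ = A * ((Real.log M) ^ k * (3 + Real.log M)) := by ring
    _ ≤ _ := by gcongr

theorem rpow_neg_le_inv {n : ℕ} (hn : n ≠ 0) {s : ℝ} (hs : 1 < s) : (n:ℝ) ^ (-s) ≤ 1 / (n:ℝ) := by
  have hn1 : (1:ℝ) ≤ n := by exact_mod_cast Nat.pos_of_ne_zero hn
  have : (n:ℝ) ^ (-s) ≤ (n:ℝ) ^ (-1:ℝ) := Real.rpow_le_rpow_of_exponent_le hn1 (by linarith)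
  rwa [Real.rpow_neg_one, ← one_div] at this

theorem L_bound : ∃ C : ℝ, 0 < C ∧ ∀ (q : ℕ) [NeZero q] (χ : DirichletCharacter ℂ q), χ ≠ 1 →
    ∀ k : ℕ, k ≤ 2 → ∀ s : ℝ, 1 < s → s ≤ 2 →
    ‖∑' n : ℕ, χ (n : ZMod q) * (((Real.log n) ^ k * (n : ℝ) ^ (-s) : ℝ) : ℂ)‖ ≤ C * (Real.log (q + 2)) ^ (k+1) := by
  refine ⟨200, by norm_num, ?_⟩
  intro q _ χ hχ k hk s hs _
  have := main_bound χ hχ k hk 1 zero_le_one (fun n : ℕ => (Real.log n) ^ k * (n : ℝ) ^ (-s)) (by
      intro n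
      have : 0 ≤ Real.log (n:ℝ) := Real.log_natCast_nonneg n
      positivity) (by
      intro n
      split_ifs with h0
      · subst h0
        have : ((0:ℕ):ℝ) ^ (-s) = 0 := by rw [Nat.cast_zero, Real.zero_rpow (by linarith)]
        rw [this, mul_zero]
      · rw [one_mul]
        have h1 : 0 ≤ Real.log (n:ℝ) := Real.log_natCast_nonneg n
        have := rpow_neg_le_inv h0 hs
        gcongr) (by
      intro m n hm hmn
      exact anti_aux k hk s hs.le (by exact_mod_cast hm) (by exact_mod_cast hmn))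
  simpa using this

theorem L_diff : ∃ C : ℝ, 0 < C ∧ ∀ (q : ℕ) [NeZero q] (χ : DirichletCharacter ℂ q), χ ≠ 1 →
    ∀ k : ℕ, k ≤ 1 → ∀ s t : ℝ, 1 < s → s ≤ 2 → 1 < t → t ≤ 2 →
    ‖(∑' n : ℕ, χ (n : ZMod q) * (((Real.log n) ^ k * (n : ℝ) ^ (-s) : ℝ) : ℂ)) -
      (∑' n : ℕ, χ (n : ZMod q) * (((Real.log n) ^ k * (n : ℝ) ^ (-t) : ℝ) : ℂ))‖
      ≤ C * |s - t| * (Real.log (q + 2)) ^ (k+2) := by
  refine ⟨200, by norm_num, ?_⟩
  intro q _ χ hχ k hk s t hs hs2 ht ht2
  wlog hst : s ≤ t generalizing s t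
  · have := this t s ht ht2 hs hs2 (not_le.mp hst).le
    rwa [norm_sub_rev, abs_sub_comm] at this
  have hsummable : ∀ u : ℝ, 1 < u → Summable (fun n : ℕ => χ (n : ZMod q) * (((Real.log n) ^ k * (n : ℝ) ^ (-u) : ℝ) : ℂ)) := by
    intro u hu
    have hbase : Summable (fun n : ℕ => (2/(u-1)) ^ k * (n:ℝ) ^ (-((u+1)/2))) := by
      have := (Real.summable_nat_rpow (p := -((u+1)/2))).mpr (by linarith)
      exact this.mul_left _
    apply Summable.of_norm_bounded hbase
    intro n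
    rw [norm_mul, Complex.norm_real, Real.norm_eq_abs]
    have h1 : 0 ≤ Real.log (n:ℝ) := Real.log_natCast_nonneg n
    rw [abs_of_nonneg (by positivity)]
    have h2 := χ.norm_le_one (n : ZMod q)
    have h3 : (Real.log n) ^ k * (n : ℝ) ^ (-u) ≤ (2/(u-1)) ^ k * (n:ℝ) ^ (-((u+1)/2)) := by
      rcases Nat.eq_zero_or_pos n with h0 | h0
      · subst h0
        rw [Nat.cast_zero, Real.zero_rpow (by linarith), Real.zero_rpow (by linarith)]; simp
      · have hn0 : (0:ℝ) < n := by exact_mod_cast h0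
        have hn1 : (1:ℝ) ≤ n := by exact_mod_cast h0
        have hlog : Real.log n ≤ 2/(u-1) * (n:ℝ) ^ ((u-1)/2) := by
          have := Real.log_le_rpow_div hn0.le (ε := (u-1)/2) (by linarith)
          calc _ ≤ _ := this
            _ = _ := by have : u - 1 ≠ 0 := by linarith
                        field_simp
        have h4 : (Real.log n) ^ k ≤ (2/(u-1)) ^ k * (n:ℝ) ^ ((u-1)/2) := by
          rcases Nat.le_one_iff_eq_zero_or_eq_one.mp hk with h | h
          · subst h; simp only [pow_zero, one_mul]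
            exact Real.one_le_rpow hn1 (by linarith)
          · subst h; simpa using hlog
        calc (Real.log n) ^ k * (n : ℝ) ^ (-u) ≤ ((2/(u-1)) ^ k * (n:ℝ) ^ ((u-1)/2)) * (n : ℝ) ^ (-u) := by gcongr
          _ = (2/(u-1)) ^ k * (n:ℝ) ^ (-((u+1)/2)) := by
            rw [mul_assoc, ← Real.rpow_add hn0]; congr 2; ring
    have h4 : 0 ≤ (Real.log n) ^ k * (n : ℝ) ^ (-u) := by positivity
    calc _ ≤ 1 * ((Real.log n) ^ k * (n : ℝ) ^ (-u)) := by gcongr
      _ ≤ _ := by rw [one_mul]; exact h3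
  rw [← (hsummable s hs).tsum_sub (hsummable t ht)]
  have e : (fun n : ℕ => χ (n : ZMod q) * (((Real.log n) ^ k * (n : ℝ) ^ (-s) : ℝ) : ℂ) -
      χ (n : ZMod q) * (((Real.log n) ^ k * (n : ℝ) ^ (-t) : ℝ) : ℂ)) =
      (fun n : ℕ => χ (n : ZMod q) * (((Real.log n) ^ k * ((n : ℝ) ^ (-s) - (n:ℝ) ^ (-t)) : ℝ) : ℂ)) := by
    ext n; push_cast; ring
  rw [e]
  have hst0 : 0 ≤ t - s := sub_nonneg.mpr hst
  have := main_bound χ hχ (k+1) (by omega) (t - s) hst0
    (fun n : ℕ => (Real.log n) ^ k * ((n : ℝ) ^ (-s) - (n:ℝ) ^ (-t))) (by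
      intro n
      have h1 : 0 ≤ Real.log (n:ℝ) := Real.log_natCast_nonneg n
      rcases Nat.eq_zero_or_pos n with h0 | h0
      · subst h0
        rw [Nat.cast_zero, Real.zero_rpow (by linarith), Real.zero_rpow (by linarith)]; simp
      · have hn1 : (1:ℝ) ≤ n := by exact_mod_cast h0
        have : (n:ℝ) ^ (-t) ≤ (n:ℝ) ^ (-s) := Real.rpow_le_rpow_of_exponent_le hn1 (by linarith)
        have : 0 ≤ (n:ℝ) ^ (-s) - (n:ℝ) ^ (-t) := by linarith
        positivity) (by
      intro n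
      split_ifs with h0
      · subst h0
        rw [Nat.cast_zero, Real.zero_rpow (by linarith), Real.zero_rpow (by linarith)]; simp
      · have hn1 : (1:ℝ) ≤ n := by exact_mod_cast Nat.pos_of_ne_zero h0
        have hn0 : (0:ℝ) < n := by linarith
        have h1 : 0 ≤ Real.log (n:ℝ) := Real.log_natCast_nonneg n
        have h2 : (n:ℝ) ^ (-s) - (n:ℝ) ^ (-t) ≤ (n:ℝ) ^ (-s) * ((t - s) * Real.log n) := by
          have h3 : (n:ℝ) ^ (-t) = (n:ℝ) ^ (-s) * (n:ℝ) ^ (-(t - s)) := by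
            rw [← Real.rpow_add hn0]; congr 1; ring
          rw [h3]
          have h4 : 1 - (t - s) * Real.log n ≤ (n:ℝ) ^ (-(t - s)) := by
            rw [Real.rpow_def_of_pos hn0]
            have := Real.add_one_le_exp (Real.log n * -(t - s))
            linarith
          have h5 : 0 ≤ (n:ℝ) ^ (-s) := by positivity
          nlinarith
        have h3 := rpow_neg_le_inv h0 hs
        calc (Real.log n) ^ k * ((n:ℝ) ^ (-s) - (n:ℝ) ^ (-t)) ≤ (Real.log n) ^ k * ((n:ℝ) ^ (-s) * ((t - s) * Real.log n)) := by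
              gcongr
          _ ≤ (Real.log n) ^ k * ((1 / (n:ℝ)) * ((t - s) * Real.log n)) := by gcongr
          _ = _ := by rw [pow_succ]; ring) (by
      intro m n hm hmn
      have hm8 : (8:ℝ) ≤ m := by exact_mod_cast hm
      have hmn' : (m:ℝ) ≤ n := by exact_mod_cast hmn
      have hm0 : (0:ℝ) < m := by linarith
      have hn0 : (0:ℝ) < n := by linarith
      -- D(u) = (log n)^k n^(-u) - (log m)^k m^(-u) is monotone on [s,t]
      let D : ℝ → ℝ := fun u => (Real.log n) ^ k * (n:ℝ) ^ (-u) - (Real.log m) ^ k * (m:ℝ) ^ (-u)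
      have hderiv : ∀ u, HasDerivAt D ((Real.log n) ^ k * (-(Real.log n) * (n:ℝ) ^ (-u)) - (Real.log m) ^ k * (-(Real.log m) * (m:ℝ) ^ (-u))) u := by
        intro u
        have h1 : ∀ x : ℝ, 0 < x → HasDerivAt (fun u : ℝ => x ^ (-u)) (-(Real.log x) * x ^ (-u)) u := by
          intro x hx
          have := ((hasDerivAt_id u).neg).const_rpow hx
          simpa [mul_comm] using this
        exact ((h1 n hn0).const_mul _).sub ((h1 m hm0).const_mul _)
      have hmono : MonotoneOn D (Set.Icc s t) := by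
        apply monotoneOn_of_deriv_nonneg (convex_Icc s t)
        · intro u _; exact (hderiv u).continuousAt.continuousWithinAt
        · intro u _; exact (hderiv u).differentiableAt.differentiableWithinAt
        · intro u hu
          rw [interior_Icc] at hu
          rw [(hderiv u).deriv]
          have := anti_aux (k+1) (by omega) u (by linarith [hu.1]) hm8 hmn'
          rw [pow_succ, pow_succ] at this
          linarith
      have := hmono (Set.left_mem_Icc.mpr hst) (Set.right_mem_Icc.mpr hst) hst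
      simp only [D] at this
      linarith)
  rw [abs_sub_comm, abs_of_nonneg hst0]
  calc _ ≤ _ := this
    _ = _ := by ring

end Pool.Agent.Erdos456

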