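import Mathlib
import Pool.Agent.H27.G.R_seed8.Erdos456.LBound

open Finset Filter Topology

namespace Pool.Agent.Erdos456

open DirichletCharacter

/-- the L-function at a real point > 1 as the sum in LBound (k = 0) -/
theorem LFun_eq {q : ℕ} [NeZero q] (χ : DirichletCharacter ℂ q) {s : ℝ} (hs : 1 < s) :
    LFunction χ (s : ℂ) = ∑' n : ℕ, χ (n : ZMod q) * (((Real.log n) ^ 0 * (n : ℝ) ^ (-s) : ℝ) : ℂ) := by
  rw [LFunction_eq_LSeries χ (by simpa using hs), LSeries]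
  apply tsum_congr
  intro n
  rcases Nat.eq_zero_or_pos n with h0 | h0
  · subst h0
    have : ((0:ℕ):ℝ) ^ (-s) = 0 := by rw [Nat.cast_zero, Real.zero_rpow (by linarith)]
    simp
    right
    rw [Real.zero_rpow (by linarith)]
  · rw [LSeries.term_of_ne_zero h0.ne', pow_zero, one_mul]
    rw [Complex.ofReal_cpow (Nat.cast_nonneg n)]
    push_cast
    rw [Complex.cpow_neg, div_eq_mul_inv]

theorem LFun_deriv_eq {q : ℕ} [NeZero q] (χ : DirichletCharacter ℂ q) {s : ℝ} (hs : 1 < s) :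
    deriv (LFunction χ) (s : ℂ) = - ∑' n : ℕ, χ (n : ZMod q) * (((Real.log n) ^ 1 * (n : ℝ) ^ (-s) : ℝ) : ℂ) := by
  have hs' : 1 < (s:ℂ).re := by simpa using hs
  rw [deriv_LFunction_eq_deriv_LSeries χ hs']
  rw [LSeries_deriv]
  · congr 1
    rw [LSeries]
    apply tsum_congr
    intro n
    rcases Nat.eq_zero_or_pos n with h0 | h0
    · subst h0
      simp
    · rw [LSeries.term_of_ne_zero h0.ne', pow_one]
      push_cast
      rw [Complex.ofReal_cpow (Nat.cast_nonneg n)]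
      push_cast
      rw [Complex.cpow_neg, div_eq_mul_inv]
      unfold LSeries.logMul
      rw [← Complex.natCast_log]
      ring
  · refine lt_of_le_of_lt (LSeries.abscissaOfAbsConv_le_one_of_isBigO_one ?_) ?_
    · refine Asymptotics.IsBigO.of_bound 1 (Eventually.of_forall fun n => ?_)
      simpa using χ.norm_le_one _
    · exact_mod_cast hs


theorem Lf_bound : ∃ C : ℝ, 1 ≤ C ∧ (∀ (q : ℕ) [NeZero q] (χ : DirichletCharacter ℂ q), χ ≠ 1 →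
    ∀ s : ℝ, 1 < s → s ≤ 2 → ‖LFunction χ (s : ℂ)‖ ≤ C * Real.log (q + 2)) ∧
    (∀ (q : ℕ) [NeZero q] (χ : DirichletCharacter ℂ q), χ ≠ 1 →
    ∀ s : ℝ, 1 < s → s ≤ 2 → ‖deriv (LFunction χ) (s : ℂ)‖ ≤ C * Real.log (q + 2) ^ 2) ∧
    (∀ (q : ℕ) [NeZero q] (χ : DirichletCharacter ℂ q), χ ≠ 1 →
    ∀ s t : ℝ, 1 < s → s ≤ 2 → 1 < t → t ≤ 2 →
      ‖LFunction χ (s : ℂ) - LFunction χ (t : ℂ)‖ ≤ C * |s - t| * Real.log (q + 2) ^ 2) ∧
    (∀ (q : ℕ) [NeZero q] (χ : DirichletCharacter ℂ q), χ ≠ 1 →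
    ∀ s t : ℝ, 1 < s → s ≤ 2 → 1 < t → t ≤ 2 →
      ‖deriv (LFunction χ) (s : ℂ) - deriv (LFunction χ) (t : ℂ)‖ ≤ C * |s - t| * Real.log (q + 2) ^ 3) := by
  obtain ⟨C1, hC1, h1⟩ := L_bound
  obtain ⟨C2, hC2, h2⟩ := L_diff
  have hlog : ∀ q : ℕ, 0 ≤ Real.log ((q:ℝ) + 2) := fun q => Real.log_nonneg (by
    have : (0:ℝ) ≤ q := Nat.cast_nonneg q
    linarith)
  refine ⟨max 1 (max C1 C2), le_max_left _ _, ?_, ?_, ?_, ?_⟩
  · intro q _ χ hχ s hs hs2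
    rw [LFun_eq χ hs]
    refine (h1 q χ hχ 0 (by norm_num) s hs hs2).trans ?_
    rw [zero_add, pow_one]
    have := hlog q
    gcongr
    exact (le_max_left _ _).trans (le_max_right _ _)
  · intro q _ χ hχ s hs hs2
    rw [LFun_deriv_eq χ hs, norm_neg]
    refine (h1 q χ hχ 1 (by norm_num) s hs hs2).trans ?_
    have := hlog q
    gcongr
    exact (le_max_left _ _).trans (le_max_right _ _)
  · intro q _ χ hχ s t hs hs2 ht ht2
    rw [LFun_eq χ hs, LFun_eq χ ht]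
    refine (h2 q χ hχ 0 (by norm_num) s t hs hs2 ht ht2).trans ?_
    have := hlog q
    rw [zero_add]
    gcongr
    exact (le_max_right _ _).trans (le_max_right _ _)
  · intro q _ χ hχ s t hs hs2 ht ht2
    rw [LFun_deriv_eq χ hs, LFun_deriv_eq χ ht, ← neg_add', norm_neg, ← sub_eq_add_neg]
    refine (h2 q χ hχ 1 (by norm_num) s t hs hs2 ht ht2).trans ?_
    have := hlog q
    gcongr
    exact (le_max_right _ _).trans (le_max_right _ _)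

theorem logder_diff : ∃ C : ℝ, 1 ≤ C ∧ ∀ (q : ℕ) [NeZero q] (χ : DirichletCharacter ℂ q), χ ≠ 1 →
    ∀ s t : ℝ, 1 < s → s ≤ 2 → 1 < t → t ≤ 2 → ∀ m : ℝ, 0 < m → m ≤ ‖LFunction χ (s : ℂ)‖ →
    m ≤ ‖LFunction χ (t : ℂ)‖ →
    ‖deriv (LFunction χ) (s : ℂ) / LFunction χ (s : ℂ) - deriv (LFunction χ) (t : ℂ) / LFunction χ (t : ℂ)‖
      ≤ C * |s - t| * Real.log (q + 2) ^ 4 / m ^ 2 := by
  obtain ⟨C, hC, h1, h2, h3, h4⟩ := Lf_bound
  refine ⟨2 * C^2, by nlinarith, ?_⟩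
  intro q _ χ hχ s t hs hs2 ht ht2 m hm hms hmt
  have a0 : LFunction χ (s:ℂ) ≠ 0 := by
    intro h; rw [h, norm_zero] at hms; linarith
  have b0 : LFunction χ (t:ℂ) ≠ 0 := by
    intro h; rw [h, norm_zero] at hmt; linarith
  have e : deriv (LFunction χ) (s : ℂ) / LFunction χ (s : ℂ) - deriv (LFunction χ) (t : ℂ) / LFunction χ (t : ℂ)
    = ((deriv (LFunction χ) (s : ℂ) - deriv (LFunction χ) (t : ℂ)) * LFunction χ (t:ℂ) -
      deriv (LFunction χ) (t : ℂ) * (LFunction χ (s:ℂ) - LFunction χ (t:ℂ))) / (LFunction χ (s:ℂ) * LFunction χ (t:ℂ)) := by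
    field_simp
    ring
  rw [e, norm_div, norm_mul]
  have hlog : 0 ≤ Real.log ((q:ℝ) + 2) := Real.log_nonneg (by
    have : (0:ℝ) ≤ q := Nat.cast_nonneg q
    linarith)
  have n1 : ‖(deriv (LFunction χ) (s : ℂ) - deriv (LFunction χ) (t : ℂ)) * LFunction χ (t:ℂ) -
      deriv (LFunction χ) (t : ℂ) * (LFunction χ (s:ℂ) - LFunction χ (t:ℂ))‖ ≤ 2 * C^2 * |s - t| * Real.log (q + 2) ^ 4 := by
    calc _ ≤ ‖(deriv (LFunction χ) (s : ℂ) - deriv (LFunction χ) (t : ℂ)) * LFunction χ (t:ℂ)‖ +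
        ‖deriv (LFunction χ) (t : ℂ) * (LFunction χ (s:ℂ) - LFunction χ (t:ℂ))‖ := norm_sub_le _ _
      _ = ‖deriv (LFunction χ) (s : ℂ) - deriv (LFunction χ) (t : ℂ)‖ * ‖LFunction χ (t:ℂ)‖ +
        ‖deriv (LFunction χ) (t : ℂ)‖ * ‖LFunction χ (s:ℂ) - LFunction χ (t:ℂ)‖ := by rw [norm_mul, norm_mul]
      _ ≤ (C * |s - t| * Real.log (q + 2) ^ 3) * (C * Real.log (q + 2)) +
        (C * Real.log (q + 2) ^ 2) * (C * |s - t| * Real.log (q + 2) ^ 2) := by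
        gcongr
        · exact h4 q χ hχ s t hs hs2 ht ht2
        · exact h1 q χ hχ t ht ht2
        · exact h2 q χ hχ t ht ht2
        · exact h3 q χ hχ s t hs hs2 ht ht2
      _ = _ := by ring
  have hpos : (0:ℝ) ≤ 2 * C^2 * |s - t| * Real.log (q + 2) ^ 4 := by positivity
  calc _ ≤ (2 * C^2 * |s - t| * Real.log (q + 2) ^ 4) / (‖LFunction χ (s:ℂ)‖ * ‖LFunction χ (t:ℂ)‖) := by gcongr
    _ ≤ (2 * C^2 * |s - t| * Real.log (q + 2) ^ 4) / (m * m) := by gcongr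
    _ = _ := by rw [pow_two m]

theorem zeta_bound : ∃ C : ℝ, 1 ≤ C ∧ ∀ s : ℝ, 1 < s → s ≤ 2 → ‖riemannZeta (s:ℂ)‖ ≤ C / (s - 1) := by
  have hc : ContinuousOn (fun x : ℝ => LFunctionTrivChar₁ 1 (x:ℂ)) (Set.Icc 1 2) := by
    have := (differentiable_LFunctionTrivChar₁ 1).continuous
    exact (this.comp Complex.continuous_ofReal).continuousOn
  obtain ⟨C, hC⟩ := isCompact_Icc.exists_bound_of_continuousOn hc
  refine ⟨max 1 C, le_max_left _ _, ?_⟩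
  intro s hs hs2
  have h1 := hC s ⟨hs.le, hs2⟩
  have hne : (s:ℂ) ≠ 1 := by
    intro h
    have : s = 1 := by exact_mod_cast h
    linarith
  rw [LFunctionTrivChar₁, Function.update_of_ne hne, norm_mul] at h1
  rw [LFunctionTrivChar, LFunction_modOne_eq] at h1
  have h2 : ‖(s:ℂ) - 1‖ = s - 1 := by
    rw [show (s:ℂ) - 1 = ((s - 1 : ℝ) : ℂ) by push_cast; ring, Complex.norm_real, Real.norm_eq_abs, abs_of_pos (by linarith)]
  rw [h2] at h1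
  have h0 : 0 < s - 1 := by linarith
  rw [le_div_iff₀ h0]
  calc _ = (s-1) * ‖riemannZeta (s:ℂ)‖ := by ring
    _ ≤ C := h1
    _ ≤ _ := le_max_right _ _

theorem triv_bound {q : ℕ} [NeZero q] {s : ℝ} (hs : 1 < s) :
    ‖LFunctionTrivChar q (s:ℂ)‖ ≤ ‖riemannZeta (s:ℂ)‖ := by
  have hne : (s:ℂ) ≠ 1 := by
    intro h
    have : s = 1 := by exact_mod_cast h
    linarith
  rw [LFunctionTrivChar_eq_mul_riemannZeta hne, norm_mul]
  have : ‖∏ p ∈ q.primeFactors, (1 - (p : ℂ) ^ (-(s:ℂ)))‖ ≤ 1 := by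
    rw [norm_prod]
    apply Finset.prod_le_one
    · intro p _; exact norm_nonneg _
    · intro p hp
      have hp' := Nat.prime_of_mem_primeFactors hp
      have hpp : (1:ℝ) < p := by exact_mod_cast hp'.one_lt
      have e : (1 - (p : ℂ) ^ (-(s:ℂ))) = ((1 - (p:ℝ) ^ (-s) : ℝ) : ℂ) := by
        push_cast
        rw [Complex.ofReal_cpow (by positivity)]
        push_cast; rfl
      rw [e, Complex.norm_real, Real.norm_eq_abs]
      have h1 : 0 < (p:ℝ) ^ (-s) := by positivity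
      have h2 : (p:ℝ) ^ (-s) < 1 := Real.rpow_lt_one_of_one_lt_of_neg hpp (by linarith)
      rw [abs_of_nonneg (by linarith)]; linarith
  calc _ ≤ 1 * ‖riemannZeta (s:ℂ)‖ := by gcongr
    _ = _ := one_mul _


/-- values of a quadratic character -/
theorem quad_val {q : ℕ} (χ : DirichletCharacter ℂ q) (hχ : χ ^ 2 = 1) (a : ZMod q) :
    χ a = 0 ∨ χ a = 1 ∨ χ a = -1 := by
  by_cases ha : IsUnit a
  · right
    have : χ a ^ 2 = 1 := by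
      rw [← MulChar.pow_apply' _ two_ne_zero, hχ, MulChar.one_apply ha]
    exact sq_eq_one_iff.mp this
  · left; exact χ.map_nonunit ha

theorem factor_aux (t : ℝ) (ht : 0 < t) (ht1 : t < 1) (x y : ℂ) (hx : x = 0 ∨ x = 1 ∨ x = -1)
    (hy : y = 0 ∨ y = 1 ∨ y = -1) :
    1 ≤ ‖(1 - (t:ℂ))⁻¹ * (1 - x * (t:ℂ))⁻¹ * (1 - y * (t:ℂ))⁻¹ * (1 - x * y * (t:ℂ))⁻¹‖ := by
  have key : ∃ r : ℝ, 0 < r ∧ r ≤ 1 ∧ (1 - (t:ℂ)) * (1 - x * (t:ℂ)) * (1 - y * (t:ℂ)) * (1 - x * y * (t:ℂ)) = (r : ℂ) := by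
    have t2 : 0 < 1 - t := by linarith
    have t3 : 0 < 1 + t := by linarith
    have t4 : 0 < 1 - t^2 := by nlinarith
    rcases hx with h | h | h <;> rcases hy with h' | h' | h' <;> subst h <;> subst h'
    · exact ⟨1 - t, t2, by linarith, by push_cast; ring⟩
    · exact ⟨(1 - t)^2, by positivity, by nlinarith, by push_cast; ring⟩
    · exact ⟨1 - t^2, t4, by nlinarith, by push_cast; ring⟩
    · exact ⟨(1 - t)^2, by positivity, by nlinarith, by push_cast; ring⟩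
    · exact ⟨(1 - t)^4, by positivity, pow_le_one₀ t2.le (by linarith), by push_cast; ring⟩
    · exact ⟨(1 - t^2)^2, by positivity, pow_le_one₀ t4.le (by nlinarith), by push_cast; ring⟩
    · exact ⟨1 - t^2, t4, by nlinarith, by push_cast; ring⟩
    · exact ⟨(1 - t^2)^2, by positivity, pow_le_one₀ t4.le (by nlinarith), by push_cast; ring⟩
    · exact ⟨(1 - t^2)^2, by positivity, pow_le_one₀ t4.le (by nlinarith), by push_cast; ring⟩
  obtain ⟨r, h0, h1, he⟩ := key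
  rw [← mul_inv, ← mul_inv, ← mul_inv, he, norm_inv, Complex.norm_real, Real.norm_eq_abs, abs_of_pos h0]
  exact (one_le_inv₀ h0).mpr h1

theorem hasProd_one_le {ι : Type*} {f : ι → ℂ} {a : ℂ} (h : HasProd f a) (hf : ∀ i, 1 ≤ ‖f i‖) : 1 ≤ ‖a‖ := by
  have h1 : Tendsto (fun s : Finset ι => ‖∏ i ∈ s, f i‖) atTop (𝓝 ‖a‖) := by
    have : Tendsto (fun s : Finset ι => ∏ i ∈ s, f i) atTop (𝓝 a) := by simpa [HasProd] using h
    exact this.norm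
  refine ge_of_tendsto' h1 ?_
  intro s
  rw [norm_prod]
  have : ∏ i ∈ s, (1:ℝ) ≤ ∏ i ∈ s, ‖f i‖ := Finset.prod_le_prod (fun _ _ => zero_le_one) (fun i _ => hf i)
  simpa using this

theorem four_prod {q₁ q₂ N : ℕ} [NeZero q₁] [NeZero q₂] [NeZero N] (χ₁ : DirichletCharacter ℂ q₁)
    (χ₂ : DirichletCharacter ℂ q₂) (χ₃ : DirichletCharacter ℂ N) (h1 : χ₁ ^ 2 = 1) (h2 : χ₂ ^ 2 = 1)
    (h3 : ∀ n : ℕ, χ₃ (n : ZMod N) = χ₁ (n : ZMod q₁) * χ₂ (n : ZMod q₂)) {s : ℝ} (hs : 1 < s) :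
    1 ≤ ‖riemannZeta (s:ℂ)‖ * ‖LFunction χ₁ (s:ℂ)‖ * ‖LFunction χ₂ (s:ℂ)‖ * ‖LFunction χ₃ (s:ℂ)‖ := by
  have hs' : 1 < (s:ℂ).re := by simpa using hs
  have p0 := riemannZeta_eulerProduct_hasProd hs'
  have p1 := DirichletCharacter.LSeries_eulerProduct_hasProd χ₁ hs'
  have p2 := DirichletCharacter.LSeries_eulerProduct_hasProd χ₂ hs'
  have p3 := DirichletCharacter.LSeries_eulerProduct_hasProd χ₃ hs'
  rw [← LFunction_eq_LSeries _ hs'] at p1 p2 p3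
  have p := ((p0.mul p1).mul p2).mul p3
  rw [← norm_mul, ← norm_mul, ← norm_mul]
  refine hasProd_one_le p ?_
  intro p
  have hp : (1:ℝ) < (p:ℕ) := by exact_mod_cast p.2.one_lt
  have e : ((p:ℕ):ℂ) ^ (-(s:ℂ)) = (((p:ℕ):ℝ) ^ (-s) : ℝ) := by
    rw [Complex.ofReal_cpow (by positivity)]
    push_cast; rfl
  have h3' := h3 p
  rw [h3', e]
  exact factor_aux _ (by positivity) (Real.rpow_lt_one_of_one_lt_of_neg hp (by linarith)) _ _
    (quad_val χ₁ h1 _) (quad_val χ₂ h2 _)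


/-- the Good condition at the single point 1 + d / l^9 -/
def Good (c d l : ℝ) (q : ℕ) [NeZero q] : Prop :=
  ∀ χ : DirichletCharacter ℂ q, χ ≠ 1 → c / l ^ 7 ≤ ‖LFunction χ ((1 + d / l ^ 9 : ℝ) : ℂ)‖

theorem core : ∃ C : ℝ, 1 ≤ C ∧ ∃ d : ℝ, 0 < d ∧ d ≤ 1 ∧
    (∀ l : ℝ, 1 ≤ l → ∀ (q : ℕ) [NeZero q], Real.log (q + 2) ≤ 4 * l → Good (32 * C * d) d l q →
      ∀ χ : DirichletCharacter ℂ q, χ ≠ 1 → ∀ s : ℝ, 1 < s → s ≤ 1 + d / l ^ 9 →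
        16 * C * d / l ^ 7 ≤ ‖LFunction χ (s : ℂ)‖) ∧
    (∀ l : ℝ, 1 ≤ l → ∀ (q : ℕ) [NeZero q], Real.log (q + 2) ≤ 4 * l →
      ∀ χ : DirichletCharacter ℂ q, χ ^ 2 ≠ 1 → 32 * C * d / l ^ 7 ≤ ‖LFunction χ ((1 + d / l ^ 9 : ℝ) : ℂ)‖) ∧
    (∀ l : ℝ, 1 ≤ l → ∀ (q₁ q₂ N : ℕ) [NeZero q₁] [NeZero q₂] [NeZero N], Real.log (N + 2) ≤ 4 * l →
      ∀ (χ₁ : DirichletCharacter ℂ q₁) (χ₂ : DirichletCharacter ℂ q₂) (χ₃ : DirichletCharacter ℂ N),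
      χ₁ ^ 2 = 1 → χ₂ ^ 2 = 1 → (∀ n : ℕ, χ₃ (n : ZMod N) = χ₁ (n : ZMod q₁) * χ₂ (n : ZMod q₂)) → χ₃ ≠ 1 →
      ‖LFunction χ₁ ((1 + d / l ^ 9 : ℝ) : ℂ)‖ < 32 * C * d / l ^ 7 →
      32 * C * d / l ^ 7 ≤ ‖LFunction χ₂ ((1 + d / l ^ 9 : ℝ) : ℂ)‖) := by
  obtain ⟨C, hC, h1, h2, h3, h4⟩ := Lf_bound
  obtain ⟨Z, hZ, hz⟩ := zeta_bound
  set d : ℝ := 1 / (8 * C * Z ^ 3 * (32 * C) ^ 4) with hd
  have hC0 : 0 < C := by linarith
  have hZ0 : 0 < Z := by linarith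
  have hden : 0 < 8 * C * Z ^ 3 * (32 * C) ^ 4 := by positivity
  have hd0 : 0 < d := by positivity
  have hdK : 4 * C * Z ^ 3 * (32 * C) ^ 4 * d < 1 := by
    rw [hd, mul_one_div, div_lt_one hden]
    nlinarith [hden]
  have hZ3 : 1 ≤ Z ^ 3 := one_le_pow₀ hZ
  have hK1 : 1 ≤ 32 * C := by linarith
  have hd1 : d ≤ 1 := by
    have e1 : 1 ≤ 4 * C * Z ^ 3 * (32 * C) ^ 4 := by
      have : 1 ≤ (32 * C) ^ 4 := one_le_pow₀ hK1
      have a1 : 1 ≤ 4 * C * Z^3 := by nlinarith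
      nlinarith
    nlinarith
  have hdK2 : 4 * C * Z * (32 * C) ^ 2 * d < 1 := by
    refine lt_of_le_of_lt ?_ hdK
    have a1 : Z ≤ Z ^ 3 := by nlinarith [sq_nonneg (Z-1), sq_nonneg Z]
    have a2 : (32 * C) ^ 2 ≤ (32 * C) ^ 4 := pow_le_pow_right₀ hK1 (by norm_num)
    gcongr
  -- the point
  have hx : ∀ l : ℝ, 1 ≤ l → 0 < d / l ^ 9 ∧ d / l ^ 9 ≤ 1 := by
    intro l hl
    have hl9 : 1 ≤ l ^ 9 := one_le_pow₀ hl
    refine ⟨by positivity, ?_⟩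
    rw [div_le_one (by positivity)]
    linarith
  refine ⟨C, hC, d, hd0, hd1, ?_, ?_, ?_⟩
  · intro l hl q _ hq hG χ hχ s hs hs2
    obtain ⟨x0, x1⟩ := hx l hl
    have g := hG χ hχ
    have b := h3 q χ hχ (1 + d / l ^ 9) s (by linarith) (by linarith) hs (by linarith)
    have hlog : 0 ≤ Real.log ((q:ℝ) + 2) := Real.log_nonneg (by
      have : (0:ℝ) ≤ q := Nat.cast_nonneg q
      linarith)
    have b2 : C * |1 + d / l ^ 9 - s| * Real.log (q + 2) ^ 2 ≤ 16 * C * d / l ^ 7 := by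
      have : |1 + d / l ^ 9 - s| ≤ d / l ^ 9 := by
        rw [abs_of_nonneg (by linarith)]; linarith
      calc _ ≤ C * (d / l^9) * (4 * l) ^ 2 := by gcongr
        _ = _ := by
          have : l ≠ 0 := by linarith
          field_simp
          ring
    have b3 : ‖LFunction χ ((1 + d / l ^ 9 : ℝ) : ℂ)‖ ≤ ‖LFunction χ (s : ℂ)‖ +
        ‖LFunction χ ((1 + d / l ^ 9 : ℝ) : ℂ) - LFunction χ (s : ℂ)‖ := by
      have := norm_add_le (LFunction χ (s : ℂ)) (LFunction χ ((1 + d / l ^ 9 : ℝ) : ℂ) - LFunction χ (s : ℂ))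
      rwa [add_sub_cancel] at this
    have e : 32 * C * d / l ^ 7 = 16 * C * d / l^7 + 16 * C * d / l ^ 7 := by ring
    linarith
  · intro l hl q _ hq χ hχ
    obtain ⟨x0, x1⟩ := hx l hl
    by_contra hcon
    push Not at hcon
    have p := DirichletCharacter.norm_LFunction_product_ge_one χ x0 0
    have e1 : (1:ℂ) + ((d / l^9 : ℝ) : ℂ) = ((1 + d / l ^ 9 : ℝ) : ℂ) := by push_cast; rfl
    simp only [Complex.ofReal_zero, mul_zero, add_zero] at p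
    rw [e1, norm_mul, norm_mul, norm_pow, norm_pow] at p
    have z1 := hz (1 + d / l ^ 9) (by linarith) (by linarith)
    have z2 := triv_bound (q := q) (s := 1 + d / l ^ 9) (by linarith)
    rw [add_sub_cancel_left] at z1
    have z3 := z2.trans z1
    have b := h1 q (χ^2) hχ (1 + d / l ^ 9) (by linarith) (by linarith)
    have b' : ‖LFunction (χ^2) ((1 + d / l ^ 9 : ℝ) : ℂ)‖ ≤ C * (4 * l) := b.trans (by gcongr)
    have : ‖LFunctionTrivChar q ((1 + d / l ^ 9 : ℝ) : ℂ)‖ ^ 3 * ‖LFunction χ ((1 + d / l ^ 9 : ℝ) : ℂ)‖ ^ 4 *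
        ‖LFunction (χ^2) ((1 + d / l ^ 9 : ℝ) : ℂ)‖ ≤ (Z / (d / l ^ 9)) ^ 3 * (32 * C * d / l ^ 7) ^ 4 * (C * (4 * l)) := by
      gcongr
    have e2 : (Z / (d / l ^ 9)) ^ 3 * (32 * C * d / l ^ 7) ^ 4 * (C * (4 * l)) = 4 * C * Z ^ 3 * (32 * C) ^ 4 * d := by
      have : l ≠ 0 := by linarith
      field_simp
    linarith
  · intro l hl q₁ q₂ N _ _ _ hN χ₁ χ₂ χ₃ hχ₁ hχ₂ hmul hχ₃ hsmall
    obtain ⟨x0, x1⟩ := hx l hl
    by_contra hcon
    push Not at hcon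
    have p := four_prod χ₁ χ₂ χ₃ hχ₁ hχ₂ hmul (s := 1 + d / l ^ 9) (by linarith)
    have z1 := hz (1 + d / l ^ 9) (by linarith) (by linarith)
    rw [add_sub_cancel_left] at z1
    have b := h1 N χ₃ hχ₃ (1 + d / l ^ 9) (by linarith) (by linarith)
    have b' : ‖LFunction χ₃ ((1 + d / l ^ 9 : ℝ) : ℂ)‖ ≤ C * (4 * l) := b.trans (by gcongr)
    have : ‖riemannZeta ((1 + d / l ^ 9 : ℝ) : ℂ)‖ * ‖LFunction χ₁ ((1 + d / l ^ 9 : ℝ) : ℂ)‖ *
        ‖LFunction χ₂ ((1 + d / l ^ 9 : ℝ) : ℂ)‖ * ‖LFunction χ₃ ((1 + d / l ^ 9 : ℝ) : ℂ)‖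
        ≤ (Z / (d / l ^ 9)) * (32 * C * d / l ^ 7) * (32 * C * d / l ^ 7) * (C * (4 * l)) := by
      gcongr
    have e2 : (Z / (d / l ^ 9)) * (32 * C * d / l ^ 7) * (32 * C * d / l ^ 7) * (C * (4 * l)) = 4 * C * Z * (32 * C) ^ 2 * d / l ^ 4 := by
      have : l ≠ 0 := by linarith
      field_simp
    have e3 : 4 * C * Z * (32 * C) ^ 2 * d / l ^ 4 ≤ 4 * C * Z * (32 * C) ^ 2 * d :=
      div_le_self (by positivity) (one_le_pow₀ hl)
    linarith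


theorem fixed_lower {n : ℕ} [NeZero n] (ψ : DirichletCharacter ℂ n) (hψ : ψ ≠ 1) :
    ∃ c : ℝ, 0 < c ∧ ∀ s : ℝ, 1 ≤ s → s ≤ 2 → c ≤ ‖LFunction ψ (s:ℂ)‖ := by
  have hc : ContinuousOn (fun x : ℝ => ‖LFunction ψ (x:ℂ)‖) (Set.Icc 1 2) := by
    have := (differentiable_LFunction hψ).continuous
    exact (this.comp Complex.continuous_ofReal).norm.continuousOn
  obtain ⟨x, hx, hmin⟩ := isCompact_Icc.exists_isMinOn (Set.nonempty_Icc.mpr one_le_two) hc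
  refine ⟨‖LFunction ψ (x:ℂ)‖, ?_, fun s h1 h2 => hmin ⟨h1, h2⟩⟩
  rw [norm_pos_iff]
  exact LFunction_ne_zero_of_one_le_re ψ (Or.inl hψ) (by simpa using hx.1)

theorem fixed_lower_all (n : ℕ) [NeZero n] :
    ∃ c : ℝ, 0 < c ∧ ∀ ψ : DirichletCharacter ℂ n, ψ ≠ 1 → ∀ s : ℝ, 1 ≤ s → s ≤ 2 → c ≤ ‖LFunction ψ (s:ℂ)‖ := by
  have h : ∀ ψ : DirichletCharacter ℂ n, ∃ c : ℝ, 0 < c ∧ (ψ ≠ 1 → ∀ s : ℝ, 1 ≤ s → s ≤ 2 → c ≤ ‖LFunction ψ (s:ℂ)‖) := by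
    intro ψ
    by_cases hψ : ψ = 1
    · exact ⟨1, one_pos, fun h => absurd hψ h⟩
    · obtain ⟨c, hc, h⟩ := fixed_lower ψ hψ
      exact ⟨c, hc, fun _ => h⟩
  choose f hf0 hf using h
  obtain ⟨i, hi⟩ := Finite.exists_min f
  exact ⟨f i, hf0 i, fun ψ hψ s h1 h2 => (hi ψ).trans (hf ψ hψ s h1 h2)⟩

theorem fixed_lower_le (P : ℕ) : ∃ c : ℝ, 0 < c ∧ ∀ (n : ℕ) [NeZero n], n ≤ P →
    ∀ ψ : DirichletCharacter ℂ n, ψ ≠ 1 → ∀ s : ℝ, 1 ≤ s → s ≤ 2 → c ≤ ‖LFunction ψ (s:ℂ)‖ := by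
  induction P with
  | zero =>
    refine ⟨1, one_pos, ?_⟩
    intro n hn h
    exact absurd (Nat.le_zero.mp h) hn.out
  | succ P ih =>
    obtain ⟨c, hc, h⟩ := ih
    obtain ⟨c', hc', h'⟩ := fixed_lower_all (P+1)
    refine ⟨min c c', lt_min hc hc', ?_⟩
    intro n hn hle ψ hψ s h1 h2
    rcases Nat.lt_or_ge P n with hlt | hge
    · have : n = P + 1 := by omega
      subst this
      exact (min_le_right _ _).trans (h' ψ hψ s h1 h2)
    · exact (min_le_left _ _).trans (h n hge ψ hψ s h1 h2)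

theorem prod_lower (S : Finset ℕ) (hS : ∀ p ∈ S, 2 ≤ p) :
    1 / ((S.card : ℝ) + 1) ≤ ∏ p ∈ S, (1 - 1 / (p:ℝ)) := by
  induction S using Finset.induction_on_max with
  | empty => simp
  | insert a s hlt ih =>
    have ha : a ∉ s := fun h => lt_irrefl _ (hlt a h)
    rw [Finset.prod_insert ha, Finset.card_insert_of_notMem ha]
    have ih' := ih (fun p hp => hS p (Finset.mem_insert_of_mem hp))
    have ha2 := hS a (Finset.mem_insert_self _ _)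
    -- a >= card s + 2
    have hcard : s.card + 2 ≤ a := by
      have : s ⊆ Finset.Ico 2 a := by
        intro p hp
        exact Finset.mem_Ico.mpr ⟨hS p (Finset.mem_insert_of_mem hp), hlt p hp⟩
      have := Finset.card_le_card this
      rw [Nat.card_Ico] at this
      omega
    have hc : ((s.card : ℝ) + 2) ≤ a := by exact_mod_cast hcard
    have hc0 : (0:ℝ) ≤ s.card := Nat.cast_nonneg _
    have h1 : ((s.card : ℝ) + 1) / (s.card + 2) ≤ 1 - 1 / (a:ℝ) := by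
      have : 1 / (a:ℝ) ≤ 1 / ((s.card:ℝ) + 2) := one_div_le_one_div_of_le (by linarith) hc
      have e : ((s.card : ℝ) + 1) / (s.card + 2) = 1 - 1 / ((s.card:ℝ) + 2) := by
        field_simp; ring
      linarith
    calc 1 / (((s.card + 1 : ℕ) : ℝ) + 1) = ((s.card : ℝ) + 1) / (s.card + 2) * (1 / ((s.card : ℝ) + 1)) := by
          push_cast
          field_simp
          ring
      _ ≤ (1 - 1 / (a:ℝ)) * ∏ p ∈ s, (1 - 1 / (p:ℝ)) := by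
          gcongr
          exact le_trans (by positivity) h1

theorem two_pow_omega_le (q : ℕ) (hq : q ≠ 0) : 2 ^ q.primeFactors.card ≤ q := by
  calc 2 ^ q.primeFactors.card = ∏ _p ∈ q.primeFactors, 2 := by rw [Finset.prod_const]
    _ ≤ ∏ p ∈ q.primeFactors, p := Finset.prod_le_prod' (fun p hp => (Nat.prime_of_mem_primeFactors hp).two_le)
    _ ≤ q := Nat.le_of_dvd (Nat.pos_of_ne_zero hq) (Nat.prod_primeFactors_dvd q)

theorem gcd_case (P : ℕ) (K : ℝ) (hK : 0 < K) : ∃ l₀ : ℝ, 1 ≤ l₀ ∧ ∀ l : ℝ, l₀ ≤ l → ∀ (q₁ q₂ : ℕ) [NeZero q₁] [NeZero q₂],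
    Real.log (q₁ + 2) ≤ 4 * l → Nat.gcd q₁ q₂ ≤ P → ∀ (χ₁ : DirichletCharacter ℂ q₁) (χ₂ : DirichletCharacter ℂ q₂),
    χ₁ ≠ 1 → changeLevel (q₁.dvd_mul_right q₂) χ₁ = changeLevel (q₂.dvd_mul_left q₁) χ₂ →
    ∀ s : ℝ, 1 ≤ s → s ≤ 2 → K / l ^ 7 ≤ ‖LFunction χ₁ (s:ℂ)‖ := by
  obtain ⟨c, hc, h⟩ := fixed_lower_le P
  refine ⟨max 1 (9 * K / c), le_max_left _ _, ?_⟩
  intro l hl q₁ q₂ _ _ hq hg χ₁ χ₂ hχ₁ heq s hs hs2
  have hl1 : 1 ≤ l := (le_max_left _ _).trans hl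
  have hl2 : 9 * K / c ≤ l := (le_max_right _ _).trans hl
  obtain ⟨hd, ψ, hψ⟩ := factorsThrough_gcd χ₁ χ₂ heq
  have hgpos : 0 < Nat.gcd q₁ q₂ := Nat.gcd_pos_of_pos_left _ (Nat.pos_of_ne_zero (NeZero.ne q₁))
  have : NeZero (Nat.gcd q₁ q₂) := ⟨hgpos.ne'⟩
  have hψ1 : ψ ≠ 1 := by
    intro h; rw [h] at hψ; apply hχ₁; rw [hψ]; exact map_one _
  have hLψ := h (Nat.gcd q₁ q₂) hg ψ hψ1 s hs hs2
  rw [hψ, LFunction_changeLevel hd ψ (Or.inl hψ1), norm_mul, norm_prod]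
  have hprod : 1 / ((q₁.primeFactors.card : ℝ) + 1) ≤ ∏ p ∈ q₁.primeFactors, ‖1 - ψ (p : ZMod _) * (p:ℂ) ^ (-(s:ℂ))‖ := by
    refine (prod_lower q₁.primeFactors (fun p hp => (Nat.prime_of_mem_primeFactors hp).two_le)).trans ?_
    apply Finset.prod_le_prod
    · intro p hp
      have : (1:ℝ) ≤ p := by exact_mod_cast (Nat.prime_of_mem_primeFactors hp).one_le
      have : 1 / (p:ℝ) ≤ 1 := (div_le_one (by linarith)).mpr this
      linarith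
    · intro p hp
      have hp2 := (Nat.prime_of_mem_primeFactors hp).two_le
      have hp1 : (1:ℝ) ≤ p := by exact_mod_cast (Nat.prime_of_mem_primeFactors hp).one_le
      have e : ‖ψ (p : ZMod _) * (p:ℂ) ^ (-(s:ℂ))‖ ≤ 1 / (p:ℝ) := by
        rw [norm_mul, Complex.norm_natCast_cpow_of_pos (by omega)]
        simp only [Complex.neg_re, Complex.ofReal_re]
        calc _ ≤ 1 * (p:ℝ) ^ (-s) := by
              gcongr
              exact ψ.norm_le_one _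
          _ ≤ 1 * (p:ℝ) ^ (-1:ℝ) := by
              gcongr
          _ = _ := by rw [Real.rpow_neg_one, one_mul, one_div]
      have e2 : 1 - ‖ψ (p : ZMod _) * (p:ℂ) ^ (-(s:ℂ))‖ ≤ ‖1 - ψ (p : ZMod _) * (p:ℂ) ^ (-(s:ℂ))‖ := by
        have := norm_sub_norm_le (1:ℂ) (ψ (p : ZMod _) * (p:ℂ) ^ (-(s:ℂ)))
        rwa [norm_one] at this
      linarith
  have homega : (q₁.primeFactors.card : ℝ) + 1 ≤ 9 * l := by
    have h1 : (2:ℝ) ^ q₁.primeFactors.card ≤ q₁ := by exact_mod_cast two_pow_omega_le q₁ (NeZero.ne q₁)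
    have h2 : (q₁.primeFactors.card : ℝ) * Real.log 2 ≤ Real.log q₁ := by
      rw [← Real.log_pow]
      exact Real.log_le_log (by positivity) h1
    have hq0 : (0:ℝ) < q₁ := by exact_mod_cast Nat.pos_of_ne_zero (NeZero.ne q₁)
    have h3 : Real.log q₁ ≤ 4 * l := (Real.log_le_log hq0 (by linarith)).trans hq
    have h4 : (0.5:ℝ) < Real.log 2 := by
      have := Real.log_two_gt_d9; linarith
    have h5 : (0:ℝ) ≤ q₁.primeFactors.card := Nat.cast_nonneg _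
    nlinarith
  have hl0 : 0 < l := by linarith
  have hprod2 : 1 / (9 * l) ≤ ∏ p ∈ q₁.primeFactors, ‖1 - ψ (p : ZMod _) * (p:ℂ) ^ (-(s:ℂ))‖ := by
    refine le_trans ?_ hprod
    apply one_div_le_one_div_of_le (by positivity) homega
  have hfin : K / l ^ 7 ≤ c * (1 / (9 * l)) := by
    rw [mul_one_div, div_le_div_iff₀ (by positivity) (by positivity)]
    have h1 : 9 * K ≤ l * c := by
      rwa [div_le_iff₀ hc] at hl2
    have h2 : l * c ≤ l ^ 6 * c := by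
      have : l ≤ l ^ 6 := le_self_pow₀ hl1 (by norm_num)
      gcongr
    calc K * (9 * l) = 9 * K * l := by ring
      _ ≤ (l ^ 6 * c) * l := mul_le_mul_of_nonneg_right (h1.trans h2) hl0.le
      _ = c * l ^ 7 := by ring
  refine hfin.trans ?_
  gcongr

theorem mul_char_apply {q₁ q₂ : ℕ} (χ₁ : DirichletCharacter ℂ q₁) (χ₂ : DirichletCharacter ℂ q₂) (n : ℕ) :
    (changeLevel (q₁.dvd_mul_right q₂) χ₁ * changeLevel (q₂.dvd_mul_left q₁) χ₂) (n : ZMod (q₁ * q₂)) =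
      χ₁ (n : ZMod q₁) * χ₂ (n : ZMod q₂) := by
  by_cases h : Nat.Coprime n (q₁ * q₂)
  · have hc : IsCoprime (n:ℤ) ((q₁ * q₂ : ℕ) : ℤ) := Nat.isCoprime_iff_coprime.mpr h
    have e1 := changeLevel_eq_cast_of_dvd' χ₁ (q₁.dvd_mul_right q₂) hc
    have e2 := changeLevel_eq_cast_of_dvd' χ₂ (q₂.dvd_mul_left q₁) hc
    simp only [Int.cast_natCast] at e1 e2
    rw [MulChar.mul_apply, e1, e2]
  · have e0 : (changeLevel (q₁.dvd_mul_right q₂) χ₁ * changeLevel (q₂.dvd_mul_left q₁) χ₂) (n : ZMod (q₁ * q₂)) = 0 := by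
      apply MulChar.map_nonunit
      rwa [ZMod.isUnit_iff_coprime]
    rw [e0]
    symm
    rw [Nat.coprime_mul_iff_right, not_and_or] at h
    rcases h with h | h
    · rw [χ₁.map_nonunit (by rwa [ZMod.isUnit_iff_coprime]), zero_mul]
    · rw [χ₂.map_nonunit (by rwa [ZMod.isUnit_iff_coprime]), mul_zero]


/-- everything about L-functions in one statement: constants `c0`, `d` with
(1) for two moduli with small gcd one of the two has the property that all its nontrivial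
characters satisfy the lower bound on the interval (1, 1 + d / l ^ 9]. -/
theorem dichotomy : ∃ c0 d : ℝ, 0 < c0 ∧ 0 < d ∧ d ≤ 1 ∧ ∀ P : ℕ, ∃ l₀ : ℝ, 1 ≤ l₀ ∧ ∀ l : ℝ, l₀ ≤ l →
    ∀ (q₁ q₂ : ℕ) [NeZero q₁] [NeZero q₂], Real.log (q₁ + 2) ≤ 4 * l → Real.log (q₂ + 2) ≤ 4 * l →
      Real.log ((q₁ * q₂ : ℕ) + 2) ≤ 4 * l → Nat.gcd q₁ q₂ ≤ P →
    (∀ χ : DirichletCharacter ℂ q₁, χ ≠ 1 → ∀ s : ℝ, 1 < s → s ≤ 1 + d / l ^ 9 → c0 / l ^ 7 ≤ ‖LFunction χ (s : ℂ)‖) ∨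
    (∀ χ : DirichletCharacter ℂ q₂, χ ≠ 1 → ∀ s : ℝ, 1 < s → s ≤ 1 + d / l ^ 9 → c0 / l ^ 7 ≤ ‖LFunction χ (s : ℂ)‖) := by
  obtain ⟨C, hC, d, hd, hd1, ha, hb, hc⟩ := core
  refine ⟨16 * C * d, d, by positivity, hd, hd1, ?_⟩
  intro P
  obtain ⟨l₀, hl₀, hg⟩ := gcd_case P (32 * C * d) (by positivity)
  refine ⟨l₀, hl₀, ?_⟩
  intro l hl q₁ q₂ _ _ hq₁ hq₂ hq₁₂ hgcd
  have hl1 : 1 ≤ l := hl₀.trans hl
  have hx : 0 < d / l ^ 9 ∧ d / l ^ 9 ≤ 1 := by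
    have hl9 : 1 ≤ l ^ 9 := one_le_pow₀ hl1
    refine ⟨by positivity, ?_⟩
    rw [div_le_one (by positivity)]
    linarith
  by_cases g1 : Good (32 * C * d) d l q₁
  · left; exact ha l hl1 q₁ hq₁ g1
  by_cases g2 : Good (32 * C * d) d l q₂
  · right; exact ha l hl1 q₂ hq₂ g2
  exfalso
  unfold Good at g1 g2
  push Not at g1 g2
  obtain ⟨χ₁, hχ₁, hs1⟩ := g1
  obtain ⟨χ₂, hχ₂, hs2⟩ := g2
  have sq1 : χ₁ ^ 2 = 1 := by
    by_contra h
    exact absurd (hb l hl1 q₁ hq₁ χ₁ h) (not_le.mpr hs1)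
  have sq2 : χ₂ ^ 2 = 1 := by
    by_contra h
    exact absurd (hb l hl1 q₂ hq₂ χ₂ h) (not_le.mpr hs2)
  have hN : NeZero (q₁ * q₂) := ⟨mul_ne_zero (NeZero.ne q₁) (NeZero.ne q₂)⟩
  by_cases h3 : changeLevel (q₁.dvd_mul_right q₂) χ₁ * changeLevel (q₂.dvd_mul_left q₁) χ₂ = 1
  · have e2 : changeLevel (q₂.dvd_mul_left q₁) χ₂ * changeLevel (q₂.dvd_mul_left q₁) χ₂ = 1 := by
      rw [← map_mul, ← pow_two, sq2, map_one]
    have e : changeLevel (q₁.dvd_mul_right q₂) χ₁ = changeLevel (q₂.dvd_mul_left q₁) χ₂ := by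
      rw [← h3] at e2
      exact (mul_right_cancel e2).symm
    exact absurd (hg l hl q₁ q₂ hq₁ hgcd χ₁ χ₂ hχ₁ e (1 + d / l ^ 9) (by linarith [hx.1]) (by linarith [hx.2])) (not_le.mpr hs1)
  · have := hc l hl1 q₁ q₂ (q₁ * q₂) hq₁₂ χ₁ χ₂ _ sq1 sq2 (mul_char_apply χ₁ χ₂) h3 hs1
    exact absurd this (not_le.mpr hs2)


end Pool.Agent.Erdos456
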